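import Pool.Agent.S04071

/-!
# Entire functions with sparse power series have no deficient value of deficiency one
-/

set_option autoImplicit false

namespace Pool.Agent.Results.MP_2434ae_an.NoDeficiencyOne

open Filter Topology

/-- Maximum modulus `M(r,f)`: the supremum of `|f(z)|` over the circle `|z| = r`. -/
noncomputable def maxModulus (f : ℂ → ℂ) (r : ℝ) : ℝ :=
  sSup ((fun z => ‖f z‖) '' Metric.sphere 0 r)

/-- The order of an entire function: `limsup (log log M(r,f)) / log r` as `r → ∞`. -/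
noncomputable def order (f : ℂ → ℂ) : EReal :=
  limsup (fun r : ℝ => ((Real.log (Real.log (maxModulus f r)) / Real.log r : ℝ) : EReal)) atTop

/-- `N(t)`: the number of exponents `k ≤ t` with non-zero coefficient `a k`. -/
noncomputable def count (a : ℕ → ℂ) (t : ℝ) : ℝ :=
  (Set.ncard {k : ℕ | (k : ℝ) ≤ t ∧ a k ≠ 0} : ℝ)

/-- The maximal density (Polya) of the non-zero coefficients: the limit, as `ξ → 1` from the
left, of `limsup (N(r) - N(ξ r)) / ((1 - ξ) r)` as `r → ∞`. The limit always exists; we write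
the limes superior so that its existence is not part of the hypothesis. -/
noncomputable def maximalDensity (a : ℕ → ℂ) : EReal :=
  limsup (fun ξ : ℝ => limsup (fun r : ℝ =>
    (((count a r - count a (ξ * r)) / ((1 - ξ) * r) : ℝ) : EReal)) atTop) (𝓝[<] 1)

/-- The deficiency `δ(c,f) = liminf m(r,1/(f-c)) / T(r,f)` as `r → ∞`, with the proximity
function and the Nevanlinna characteristic of Mathlib. -/
noncomputable def deficiency (f : ℂ → ℂ) (c : ℂ) : EReal :=
  liminf (fun r : ℝ => ((ValueDistribution.proximity f c r /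
    ValueDistribution.characteristic f ⊤ r : ℝ) : EReal)) atTop

open Pool.Agent.Helper30.Fuchs Real

theorem power_series (a : ℕ → ℂ) (f : ℂ → ℂ) (hf : ∀ z : ℂ, HasSum (fun k => a k * z ^ k) (f z)) :
    Differentiable ℂ f ∧ ∀ k, iteratedDeriv k f 0 = (k.factorial : ℂ) * a k := by
  set p : FormalMultilinearSeries ℂ ℂ ℂ := FormalMultilinearSeries.ofScalars ℂ a with hp
  have hr : p.radius = ⊤ := by
    apply ENNReal.eq_top_of_forall_nnreal_le
    intro r
    apply FormalMultilinearSeries.le_radius_of_summable_norm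
    have h1 := (hf ((r : ℝ) : ℂ)).summable.norm
    refine Summable.of_nonneg_of_le (fun n => by positivity) (fun n => ?_) h1
    rw [hp, norm_mul, norm_pow, FormalMultilinearSeries.ofScalars_norm]
    simp
  have hball : HasFPowerSeriesOnBall f p 0 ⊤ := by
    refine ⟨by rw [hr], by simp, ?_⟩
    intro y _
    have e : (fun n => p n fun _ => y) = fun k => a k * y ^ k := by
      funext n
      simp [hp, FormalMultilinearSeries.ofScalars]
    rw [e, zero_add]
    exact hf y
  constructor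
  · have := hball.differentiableOn
    rw [Metric.eball_top] at this
    exact fun z => (this z (Set.mem_univ z)).differentiableAt Filter.univ_mem
  · intro k
    have h := hball.factorial_smul (1 : ℂ) k
    rw [iteratedDeriv_eq_iteratedFDeriv, ← h]
    simp [hp, FormalMultilinearSeries.ofScalars]

theorem norm_le_maxModulus (f : ℂ → ℂ) (hf : Differentiable ℂ f) (z : ℂ) :
    ‖f z‖ ≤ maxModulus f ‖z‖ := by
  apply le_csSup
  · exact ((isCompact_sphere (0 : ℂ) ‖z‖).image hf.continuous.norm).bddAbove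
  · exact ⟨z, by simp, rfl⟩

theorem growth (f : ℂ → ℂ) (hf : Differentiable ℂ f) (σ : ℝ) (hσ : order f < (σ : EReal)) :
    ∃ R : ℝ, ∀ z : ℂ, R ≤ ‖z‖ → ‖f z‖ ≤ Real.exp (‖z‖ ^ σ) := by
  have h := eventually_lt_of_limsup_lt hσ
  obtain ⟨R, hR⟩ := eventually_atTop.1 h
  refine ⟨max R 2, fun z hz => ?_⟩
  have h1 : R ≤ ‖z‖ := (le_max_left _ _).trans hz
  have h2 : 1 < ‖z‖ := by linarith [le_max_right R 2]
  have h3 := EReal.coe_lt_coe_iff.1 (hR ‖z‖ h1)
  have h4 : 0 < Real.log ‖z‖ := Real.log_pos h2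
  rw [div_lt_iff₀ h4] at h3
  have hM := norm_le_maxModulus f hf z
  set M := maxModulus f ‖z‖ with hMdef
  have h5 : 0 < ‖z‖ := by linarith
  have h6 : Real.log M ≤ ‖z‖ ^ σ := by
    rcases le_or_gt (Real.log M) 0 with h | h
    · exact h.trans (by positivity)
    · rw [Real.rpow_def_of_pos h5, ← Real.exp_log h]
      apply Real.exp_le_exp.2
      rw [mul_comm]
      exact h3.le
  rcases le_or_gt M 0 with h | h
  · exact (hM.trans h).trans (by positivity)
  · refine hM.trans ?_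
    rw [← Real.exp_log h]
    exact Real.exp_le_exp.2 h6

theorem count_sub (a : ℕ → ℂ) (ξ r : ℝ) (hξ : ξ ≤ 1) (hr : 0 ≤ r) :
    (Set.ncard {k : ℕ | ξ * r < (k : ℝ) ∧ (k : ℝ) ≤ r ∧ a k ≠ 0} : ℝ) =
      count a r - count a (ξ * r) := by
  have hfin : ∀ t : ℝ, {k : ℕ | (k : ℝ) ≤ t ∧ a k ≠ 0}.Finite := by
    intro t
    apply (Set.finite_Iic (⌊t⌋₊)).subset
    rintro k ⟨hk, -⟩
    exact Nat.le_floor hk
  have hsub : {k : ℕ | (k : ℝ) ≤ ξ * r ∧ a k ≠ 0} ⊆ {k : ℕ | (k : ℝ) ≤ r ∧ a k ≠ 0} := by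
    rintro k ⟨hk, h2⟩
    exact ⟨hk.trans (by nlinarith), h2⟩
  have e : {k : ℕ | ξ * r < (k : ℝ) ∧ (k : ℝ) ≤ r ∧ a k ≠ 0} =
      {k : ℕ | (k : ℝ) ≤ r ∧ a k ≠ 0} \ {k : ℕ | (k : ℝ) ≤ ξ * r ∧ a k ≠ 0} := by
    ext k
    simp only [Set.mem_ofPred_eq, Set.mem_sdiff, not_and, not_not]
    constructor
    · rintro ⟨h1, h2, h3⟩
      exact ⟨⟨h2, h3⟩, fun h4 => absurd h4 (not_le.2 h1)⟩
    · rintro ⟨⟨h2, h3⟩, h4⟩
      exact ⟨lt_of_not_ge fun h5 => h3 (h4 h5), h2, h3⟩
  have h := Set.ncard_sdiff_add_ncard_of_subset hsub (hfin r)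
  rw [← e] at h
  have h' : (Set.ncard {k : ℕ | ξ * r < (k : ℝ) ∧ (k : ℝ) ≤ r ∧ a k ≠ 0} : ℝ) +
      (Set.ncard {k : ℕ | (k : ℝ) ≤ ξ * r ∧ a k ≠ 0} : ℝ) =
      (Set.ncard {k : ℕ | (k : ℝ) ≤ r ∧ a k ≠ 0} : ℝ) := by
    exact_mod_cast h
  simp only [count]
  linarith

theorem density (a : ℕ → ℂ) (D : ℝ) (hD : maximalDensity a < (D : EReal)) :
    ∃ ξ₀ : ℝ, ξ₀ < 1 ∧ ∀ ξ : ℝ, ξ₀ < ξ → ξ < 1 → ∃ R : ℝ, ∀ r : ℝ, R ≤ r →
      ((Set.ncard {k : ℕ | ξ * r < (k : ℝ) ∧ (k : ℝ) ≤ r ∧ a k ≠ 0} : ℕ) : ℝ)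
        ≤ D * (1 - ξ) * r := by
  have h := eventually_lt_of_limsup_lt hD
  obtain ⟨ξ₀, h0, h1⟩ := (mem_nhdsLT_iff_exists_Ioo_subset).1 h
  refine ⟨ξ₀, h0, fun ξ h2 h3 => ?_⟩
  have h4' : limsup (fun r : ℝ =>
    (((count a r - count a (ξ * r)) / ((1 - ξ) * r) : ℝ) : EReal)) atTop < (D : EReal) := h1 ⟨h2, h3⟩
  have h4 := eventually_lt_of_limsup_lt h4'
  obtain ⟨R, hR⟩ := eventually_atTop.1 h4
  refine ⟨max R 1, fun r hr => ?_⟩
  have h5 := EReal.coe_lt_coe_iff.1 (hR r ((le_max_left _ _).trans hr))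
  have h6 : 1 ≤ r := (le_max_right _ _).trans hr
  rw [count_sub a ξ r h3.le (by linarith)]
  rw [div_lt_iff₀ (mul_pos (by linarith) (by linarith))] at h5
  linarith

theorem meromorphic_of_differentiable (f : ℂ → ℂ) (hf : Differentiable ℂ f) : Meromorphic f := by
  intro z
  exact (hf.analyticAt z).meromorphicAt

theorem characteristic_eq (f : ℂ → ℂ) (hf : Differentiable ℂ f) (r : ℝ) :
    ValueDistribution.characteristic f ⊤ r = Pp f r := by
  have hdiv : 0 ≤ MeromorphicOn.divisor f Set.univ :=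
    MeromorphicOn.AnalyticOnNhd.divisor_nonneg (fun z _ => hf.analyticAt z)
  have h1 : ValueDistribution.logCounting f ⊤ = 0 := by
    rw [ValueDistribution.logCounting_top]
    have : (MeromorphicOn.divisor f Set.univ)⁻ = 0 := by
      rwa [negPart_eq_zero]
    rw [this, map_zero]
  rw [ValueDistribution.characteristic, h1, add_zero, ValueDistribution.proximity_top]
  rfl

theorem proximity_eq (f : ℂ → ℂ) (c : ℂ) (r : ℝ) :
    ValueDistribution.proximity f c r = Am (fun z => f z - c) r := by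
  rw [ValueDistribution.proximity_coe]
  rfl

theorem log_growth (f : ℂ → ℂ) (hf : Differentiable ℂ f) (hnc : ∃ z w : ℂ, f z ≠ f w) :
    ∃ C : ℝ, ∀ r : ℝ, 1 ≤ r → Real.log r ≤ Pp f r + C := by
  classical
  set c := f 0 with hc
  set g : ℂ → ℂ := fun z => f z - c with hg_def
  have hg : Differentiable ℂ g := hf.sub_const c
  have hgm := meromorphic_of_differentiable g hg
  have hga : AnalyticOnNhd ℂ g Set.univ := fun z _ => hg.analyticAt z
  have hord : analyticOrderAt g 0 ≠ ⊤ := by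
    intro htop
    rw [analyticOrderAt_eq_top] at htop
    have h1 := hga.eqOn_zero_of_preconnected_of_eventuallyEq_zero isPreconnected_univ
      (Set.mem_univ 0) htop
    obtain ⟨z, w, hzw⟩ := hnc
    have h2 := h1 (Set.mem_univ z)
    have h3 := h1 (Set.mem_univ w)
    simp only [hg_def, Pi.zero_apply, sub_eq_zero] at h2 h3
    exact hzw (h2.trans h3.symm)
  have hord1 : analyticOrderAt g 0 ≠ 0 := by
    rw [analyticOrderAt_ne_zero]
    exact ⟨hg.analyticAt 0, by simp [hg_def, hc]⟩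
  have hsingle : Function.locallyFinsuppWithin.single (0 : ℂ) 1 ≤ MeromorphicOn.divisor g Set.univ := by
    rw [Function.locallyFinsuppWithin.le_def]
    intro z
    rw [Function.locallyFinsuppWithin.single_apply]
    split_ifs with h
    · subst h
      rw [MeromorphicOn.AnalyticOnNhd.divisor_apply hga (Set.mem_univ 0)]
      obtain ⟨n, hn⟩ := ENat.ne_top_iff_exists.1 hord
      rw [← hn] at hord1 ⊢
      have hn0 : n ≠ 0 := by exact_mod_cast hord1
      simp only [ENat.map_natCast, WithTop.untop₀_coe]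
      omega
    · exact (MeromorphicOn.AnalyticOnNhd.divisor_nonneg hga) z
  refine ⟨log⁺ ‖c‖ + Real.log 2 - Real.log ‖meromorphicTrailingCoeffAt g 0‖, fun r hr => ?_⟩
  have h1 := Function.locallyFinsuppWithin.logCounting_le hsingle hr
  rw [Function.locallyFinsuppWithin.logCounting_single_eq_log_sub_const (by simpa using by linarith),
    Function.locallyFinsuppWithin.logCounting_divisor_eq_circleAverage_sub_const hgm (by linarith)] at h1
  have h2 : circleAverage (fun z => Real.log ‖g z‖) 0 r ≤ Pp g r := by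
    apply circleAverage_mono
    · exact hgm.meromorphicOn.circleIntegrable_log_norm
    · exact ((cont_posLog_norm g hg).comp (continuous_circleMap 0 r)).intervalIntegrable _ _
    · intro z _
      exact le_max_right _ _
  have h3 : Pp g r ≤ Pp f r + (log⁺ ‖c‖ + Real.log 2) := Pool.Agent.S04071.Pp_sub_le f hf c r
  simp at h1
  linarith

theorem ratio_bound (f : ℂ → ℂ) (hf : Differentiable ℂ f) (c : ℂ) :
    ∃ C : ℝ, 0 ≤ C ∧ ∀ r : ℝ, 1 ≤ r → Am (fun z => f z - c) r ≤ Pp f r + C := by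
  set g : ℂ → ℂ := fun z => f z - c with hg_def
  have hg : Differentiable ℂ g := hf.sub_const c
  have hgm := meromorphic_of_differentiable g hg
  have h0 : 0 ≤ max |Real.log ‖g 0‖| |Real.log ‖meromorphicTrailingCoeffAt g 0‖| :=
    le_max_of_le_left (abs_nonneg _)
  refine ⟨max |Real.log ‖g 0‖| |Real.log ‖meromorphicTrailingCoeffAt g 0‖| + (log⁺ ‖c‖ + Real.log 2),
    add_nonneg h0 (add_nonneg posLog_nonneg (Real.log_nonneg one_le_two)), fun r hr => ?_⟩
  have h1 := ValueDistribution.characteristic_sub_characteristic_inv_le hgm (R := r)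
  have h2 : Pp g r ≤ Pp f r + (log⁺ ‖c‖ + Real.log 2) := Pool.Agent.S04071.Pp_sub_le f hf c r
  have h3 : Am g r ≤ ValueDistribution.characteristic g⁻¹ ⊤ r := by
    rw [ValueDistribution.characteristic, Pi.add_apply, ValueDistribution.proximity_inv,
      ValueDistribution.proximity_zero]
    have := ValueDistribution.logCounting_nonneg (f := g⁻¹) (e := ⊤) hr
    have e : circleAverage (fun z => log⁺ ‖g z‖⁻¹) 0 r = Am g r := rfl
    linarith
  rw [characteristic_eq g hg] at h1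
  have h4 := (abs_le.1 h1).1
  linarith

/-- Main theorem. -/
theorem result (a : ℕ → ℂ) (f : ℂ → ℂ) (hf : ∀ z : ℂ, HasSum (fun k => a k * z ^ k) (f z))
    (hnc : ∃ k, 1 ≤ k ∧ a k ≠ 0) (ρ Δ : ℝ) (hρ : order f = ρ) (hΔ : maximalDensity a = Δ)
    (h : ρ * Δ < 1 / 2) (c : ℂ) : deficiency f c < 1 := by
  obtain ⟨hd, hk⟩ := power_series a f hf
  have hnc' : ∃ z w : ℂ, f z ≠ f w := by
    by_contra hcon
    push Not at hcon
    obtain ⟨k, hk1, hk2⟩ := hnc
    have h1 : f = fun _ => f 0 := funext fun z => hcon z 0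
    have h2 := hk k
    rw [h1, iteratedDeriv_const] at h2
    rw [if_neg (by omega)] at h2
    exact mul_ne_zero (by exact_mod_cast k.factorial_ne_zero) hk2 h2.symm
  by_contra hcon
  rw [not_lt] at hcon
  -- choose σ and D
  obtain ⟨σ, D, hσ0, hD0, hσ, hD, hσD⟩ : ∃ σ D : ℝ, 0 ≤ σ ∧ 0 ≤ D ∧ ρ < σ ∧ Δ < D ∧ σ * D < 1 / 2 := by
    set ρ' := max ρ 0 with hρ'
    set Δ' := max Δ 0 with hΔ'
    have h1 : ρ' * Δ' < 1 / 2 := by
      rcases le_total ρ 0 with h2 | h2
      · rw [hρ', max_eq_right h2]; norm_num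
      · rcases le_total Δ 0 with h3 | h3
        · rw [hΔ', max_eq_right h3]; norm_num
        · rw [hρ', hΔ', max_eq_left h2, max_eq_left h3]; exact h
    have h2 : Tendsto (fun ε : ℝ => (ρ' + ε) * (Δ' + ε)) (𝓝 0) (𝓝 ((ρ' + 0) * (Δ' + 0))) := by
      exact ((tendsto_const_nhds.add tendsto_id).mul (tendsto_const_nhds.add tendsto_id))
    rw [add_zero, add_zero] at h2
    have h3 := (h2.eventually (gt_mem_nhds h1))
    have h4 : ∀ᶠ ε : ℝ in 𝓝[>] 0, (ρ' + ε) * (Δ' + ε) < 1 / 2 := h3.filter_mono nhdsWithin_le_nhds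
    obtain ⟨ε, hε, hε0⟩ := (h4.and self_mem_nhdsWithin).exists
    have hε0' : 0 < ε := hε0
    refine ⟨ρ' + ε, Δ' + ε, by positivity, by positivity, ?_, ?_, hε⟩
    · linarith [le_max_left ρ 0]
    · linarith [le_max_left Δ 0]
  have hg := growth f hd σ (by rw [hρ]; exact_mod_cast hσ)
  have hdens := density a D (by rw [hΔ]; exact_mod_cast hD)
  refine Pool.Agent.S04071.result f hd hnc' σ D hσ0 hD0 hσD hg ?_ c ?_
  · obtain ⟨ξ₀, h1, h2⟩ := hdens
    refine ⟨ξ₀, h1, fun ξ h3 h4 => ?_⟩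
    obtain ⟨R, hR⟩ := h2 ξ h3 h4
    refine ⟨R, fun r hr => ?_⟩
    have e : {k : ℕ | ξ * r < (k : ℝ) ∧ (k : ℝ) ≤ r ∧ iteratedDeriv k f 0 ≠ 0} =
        {k : ℕ | ξ * r < (k : ℝ) ∧ (k : ℝ) ≤ r ∧ a k ≠ 0} := by
      ext k
      simp only [Set.mem_ofPred_eq, hk k]
      rw [mul_ne_zero_iff]
      have : ((k.factorial : ℕ) : ℂ) ≠ 0 := by exact_mod_cast k.factorial_ne_zero
      tauto
    rw [e]
    exact hR r hr
  · have hT : Tendsto (Pp f) atTop atTop := by
      obtain ⟨C, hC⟩ := log_growth f hd hnc'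
      apply tendsto_atTop_mono' _ (f₁ := fun r => Real.log r - C)
      · filter_upwards [eventually_ge_atTop 1] with r hr
        linarith [hC r hr]
      · exact tendsto_atTop_add_const_right _ _ Real.tendsto_log_atTop
    obtain ⟨C, hC0, hC⟩ := ratio_bound f hd c
    have hlim : Tendsto (fun r => Am (fun z => f z - c) r / Pp f r) atTop (𝓝 1) := by
      apply tendsto_order.2 ⟨fun b hb => ?_, fun b hb => ?_⟩
      · have h1 : (b : EReal) < deficiency f c := lt_of_lt_of_le (by exact_mod_cast hb) hcon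
        have h2 := eventually_lt_of_lt_liminf h1
        filter_upwards [h2] with r hr
        have h3 := EReal.coe_lt_coe_iff.1 hr
        rwa [proximity_eq, characteristic_eq f hd] at h3
      · have h1 : Tendsto (fun r => 1 + C / Pp f r) atTop (𝓝 (1 + 0)) :=
          tendsto_const_nhds.add (tendsto_const_nhds.div_atTop hT)
        rw [add_zero] at h1
        filter_upwards [h1.eventually (gt_mem_nhds hb), eventually_ge_atTop 1,
          hT.eventually (eventually_gt_atTop 0)] with r h2 h3 h4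
        refine lt_of_le_of_lt ?_ h2
        rw [div_le_iff₀ h4, add_mul, div_mul_cancel₀ _ h4.ne', one_mul]
        exact hC r h3
    refine hlim.congr fun r => ?_
    rw [Am, Pp, circleAverage_def, circleAverage_def, smul_eq_mul, smul_eq_mul,
      mul_div_mul_left _ _ (by positivity)]
    rfl

end Pool.Agent.Results.MP_2434ae_an.NoDeficiencyOne
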